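import Mathlib
import Pool.Agent.Helper17.CT.Defs
import Pool.Agent.Helper31.CT.Pair

set_option autoImplicit false

/-!
CT-4: the pairing and the sign of a system of paths.
-/

namespace Pool.Agent.Helper17.CT

section poles
variable {H : Type} {k : ℕ} (N : Pole H k)

theorem ct4_step_symm {O : H → Bool} {x y : H} (h : Step N.s N.a O x y) : Step N.s N.a O y x := by
  obtain ⟨h1, h2, h3 | h3 | h3⟩ := h
  · exact ⟨h2, h1, Or.inl (by rw [h3, N.a2])⟩
  · exact ⟨h2, h1, Or.inr (Or.inr (by rw [h3, N.s3]))⟩
  · exact ⟨h2, h1, Or.inr (Or.inl (by rw [h3, N.s3]))⟩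

theorem ct4_conn_symm {O : H → Bool} {x y : H} (h : Conn N.s N.a O x y) : Conn N.s N.a O y x := by
  induction h with
  | refl => exact .refl
  | tail _ h ih => exact .head (ct4_step_symm N h) ih

theorem ct4_ss_ne {x : H} (h : N.s x ≠ x) : N.s (N.s (N.s x)) ≠ N.s (N.s x) := by
  intro h'
  apply h
  have h1 := N.s3 x
  have h2 : N.s (N.s x) = x := by rw [← h', h1]
  rw [h2] at h1
  exact h1

/-- the third colour. -/
def ct4_third (c x : Fin 3) : Fin 3 := -(c + x)

theorem ct4_third_ne (c x : Fin 3) (h : x ≠ c) : ct4_third c x ≠ c ∧ ct4_third c x ≠ x := by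
  revert h; revert c x; decide

theorem ct4_third_third (c x : Fin 3) (h : x ≠ c) : ct4_third c (ct4_third c x) = x := by
  revert h; revert c x; decide

theorem ct4_eq_third (c x y : Fin 3) (h : x ≠ c) (h' : y ≠ c) (h'' : x ≠ y) :
    y = ct4_third c x := by
  revert h h' h''; revert c x y; decide

theorem ct4_two (c x y z : Fin 3) (hx : x ≠ c) (hy : y ≠ c) (hz : z ≠ c) (hyz : z ≠ y) :
    (z = x ↔ ¬ y = x) := by
  revert hx hy hz hyz; revert c x y z; decide

/-- The effect of a step on a colouring. -/
theorem ct4_col_step {γ : H → Fin 3} (h : N.Col γ) {O : H → Bool} {y z : H}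
    (hs : Step N.s N.a O y z) :
    z = y ∨ γ z = γ y ∧ z = N.a y ∨ (γ z ≠ γ y ∧ N.s y ≠ y ∧ (z = N.s y ∨ z = N.s (N.s y))) := by
  obtain ⟨_, _, rfl | rfl | rfl⟩ := hs
  · exact Or.inr (Or.inl ⟨h.acl y, rfl⟩)
  · by_cases hy : N.s y = y
    · exact Or.inl hy
    · exact Or.inr (Or.inr ⟨h.prop y hy, hy, Or.inl rfl⟩)
  · by_cases hy : N.s y = y
    · left; rw [hy, hy]
    · refine Or.inr (Or.inr ⟨?_, hy, Or.inr rfl⟩)
      have h1 := h.prop (N.s (N.s y)) (ct4_ss_ne N hy)
      rw [N.s3] at h1
      exact h1.symm

/-- The effect of a step on an alternate 2-colouring. -/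
theorem ct4_alt_step {O : H → Bool} {α : H → Bool} (h1 : ∀ x, O x = true → α (N.a x) = α x)
    (h2 : ∀ x, N.s x ≠ x → O x = true → O (N.s x) = true → α (N.s x) = !α x) {y z : H}
    (hs : Step N.s N.a O y z) :
    (z = N.a y → α z = α y) ∧ (N.s y ≠ y → (z = N.s y ∨ z = N.s (N.s y)) → α z = !α y) := by
  obtain ⟨hy, hz, -⟩ := hs
  refine ⟨fun h => by rw [h]; exact h1 y hy, ?_⟩
  rintro hsy (rfl | rfl)
  · exact h2 y hsy hy hz
  · have h3 := h2 (N.s (N.s y)) (ct4_ss_ne N hsy) hz (by rw [N.s3]; exact hy)
    rw [N.s3] at h3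
    rw [h3, Bool.not_not]

/-- CT-4a -/
theorem col_unique [Finite H] (O : H → Bool) (hO : N.Sys O) (c : Fin 3) (γ γ' : H → Fin 3)
    (h : N.Col γ) (h' : N.Col γ') (hc : ∀ d, γ d ≠ c ↔ O d = true)
    (hc' : ∀ d, γ' d ≠ c ↔ O d = true) (hp : ∀ j, γ (N.port j) = γ' (N.port j)) : γ = γ' := by
  have key : ∀ x y, Conn N.s N.a O x y → γ x = γ' x → γ y = γ' y := by
    intro x y hxy
    induction hxy with
    | refl => exact id
    | tail _ hs ih =>
      rename_i y z _
      intro hx
      have ih' := ih hx
      have hy : γ y ≠ c := (hc y).2 hs.1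
      have hz : γ z ≠ c := (hc z).2 hs.2.1
      have hz' : γ' z ≠ c := (hc' z).2 hs.2.1
      rcases ct4_col_step N h hs with h1 | ⟨h1, h2⟩ | ⟨h1, h2, h3⟩
      · rw [h1]; exact ih'
      · rw [h1, ih', h2, h'.acl]
      · rcases ct4_col_step N h' hs with k1 | ⟨k1, k2⟩ | ⟨k1, k2, k3⟩
        · exact absurd (congrArg γ k1) h1
        · exact absurd (by rw [k2]; exact h.acl y) h1
        · rw [ct4_eq_third c (γ y) (γ z) hy hz h1.symm,
            ct4_eq_third c (γ' y) (γ' z) ((hc' y).2 hs.1) hz' k1.symm, ih']
  funext x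
  by_cases hx : O x = true
  · obtain ⟨j, _, hj⟩ := hO.loopless x hx
    exact key _ _ (ct4_conn_symm N hj) (hp j)
  · have h1 : γ x = c := by
      by_contra h1; exact hx ((hc x).1 h1)
    have h2 : γ' x = c := by
      by_contra h2; exact hx ((hc' x).1 h2)
    rw [h1, h2]

/-- CT-4b, from CT-2 and CT-3 -/
theorem exists_spec_of (O : H → Bool) (hO : N.Sys O)
    (hpair : ∃ b : Fin k → Fin k, (∀ j, b (b j) = j) ∧ (∀ j, O (N.port j) = true ↔ b j ≠ j) ∧
      (∀ j, O (N.port j) = true → Conn N.s N.a O (N.port j) (N.port (b j))) ∧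
      ∀ i j, O (N.port i) = true → Conn N.s N.a O (N.port i) (N.port j) → j = i ∨ j = b i)
    (halt : ∃ α : H → Bool, (∀ x, O x = true → α (N.a x) = α x) ∧
      ∀ x, N.s x ≠ x → O x = true → O (N.s x) = true → α (N.s x) = !α x) :
    ∃ b ε, N.Spec O b ε := by
  classical
  obtain ⟨b, hinv, huse, hcon, huni⟩ := hpair
  obtain ⟨α, hα1, hα2⟩ := halt
  refine ⟨b, fun j => decide (α (N.port (b j)) = α (N.port j)), hinv, huse, hcon, huni, ?_, ?_⟩
  · intro j
    simp only [hinv]
    rw [decide_eq_decide]
    exact eq_comm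
  · intro κ c hκ
    constructor
    · rintro ⟨γ, hγ, hport, hγc⟩ j hj
      have key : ∀ x y, Conn N.s N.a O x y → O x = true → (γ y = γ x ↔ α y = α x) := by
        intro x y hxy
        induction hxy with
        | refl => intro _; simp
        | tail _ hs ih =>
          rename_i y z _
          intro hx
          have ih' := ih hx
          have hxc : γ x ≠ c := (hγc x).2 hx
          have hyc : γ y ≠ c := (hγc y).2 hs.1
          have hzc : γ z ≠ c := (hγc z).2 hs.2.1
          obtain ⟨a1, a2⟩ := ct4_alt_step N hα1 hα2 hs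
          rcases ct4_col_step N hγ hs with h1 | ⟨h1, h2⟩ | ⟨h1, h2, h3⟩
          · rw [h1]; exact ih'
          · rw [h1, a1 h2]; exact ih'
          · rw [ct4_two c (γ x) (γ y) (γ z) hxc hyc hzc h1, ih', a2 h2 h3]
            cases α y <;> cases α x <;> simp
      rw [← hport, ← hport, key _ _ (hcon j hj) hj, decide_eq_true_iff]
    · intro hcomp
      -- value at `d` computed from the port `i`
      let val : H → Fin k → Fin 3 := fun d i =>
        if α d = α (N.port i) then κ i else ct4_third c (κ i)
      have hval : ∀ d i j, O (N.port i) = true → Conn N.s N.a O d (N.port i) →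
          O (N.port j) = true → Conn N.s N.a O d (N.port j) → val d i = val d j := by
        intro d i j hi hdi hj hdj
        have hij : Conn N.s N.a O (N.port i) (N.port j) := (ct4_conn_symm N hdi).trans hdj
        rcases huni i j hi hij with rfl | rfl
        · rfl
        · have h1 := hcomp i hi
          rw [decide_eq_true_iff] at h1
          have hic : κ i ≠ c := (hκ i).2 hi
          have hjc : κ (b i) ≠ c := (hκ (b i)).2 hj
          simp only [val]
          by_cases h2 : κ (b i) = κ i
          · rw [h1.1 h2, h2]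
          · have h3 : α (N.port (b i)) ≠ α (N.port i) := fun h => h2 (h1.2 h)
            have h4 : κ (b i) = ct4_third c (κ i) :=
              ct4_eq_third c (κ i) (κ (b i)) hic hjc (Ne.symm h2)
            rw [h4, ct4_third_third c (κ i) hic]
            revert h3
            cases α d <;> cases α (N.port i) <;> cases α (N.port (b i)) <;> simp
      have hex : ∀ d, O d = true → ∃ j, O (N.port j) = true ∧ Conn N.s N.a O d (N.port j) :=
        fun d hd => hO.loopless d hd
      let γ : H → Fin 3 := fun d => if h : O d = true then val d (hex d h).choose else c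
      have hγ1 : ∀ d j, O d = true → O (N.port j) = true → Conn N.s N.a O d (N.port j) →
          γ d = val d j := by
        intro d j hd hj hdj
        simp only [γ]
        rw [dif_pos hd]
        exact hval d _ j (hex d hd).choose_spec.1 (hex d hd).choose_spec.2 hj hdj
      have hγ0 : ∀ d, ¬ O d = true → γ d = c := by
        intro d hd
        simp only [γ]
        rw [dif_neg hd]
      have hvalc : ∀ d j, O (N.port j) = true → val d j ≠ c := by
        intro d j hj
        have hjc : κ j ≠ c := (hκ j).2 hj
        simp only [val]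
        split_ifs
        · exact hjc
        · exact (ct4_third_ne c (κ j) hjc).1
      have hγc : ∀ d, γ d ≠ c ↔ O d = true := by
        intro d
        constructor
        · intro h
          by_contra h'
          exact h (hγ0 d h')
        · intro h
          obtain ⟨j, hj, hdj⟩ := hex d h
          rw [hγ1 d j h hj hdj]
          exact hvalc d j hj
      refine ⟨γ, ⟨?_, ?_⟩, ?_, hγc⟩
      · intro d
        by_cases hd : O d = true
        · obtain ⟨j, hj, hdj⟩ := hex d hd
          have had : O (N.a d) = true := by rw [hO.acl]; exact hd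
          have hst : Step N.s N.a O (N.a d) d := ⟨had, hd, Or.inl (N.a2 d).symm⟩
          rw [hγ1 d j hd hj hdj, hγ1 (N.a d) j had hj (Relation.ReflTransGen.head hst hdj)]
          simp only [val]
          rw [hα1 d hd]
        · have had : ¬ O (N.a d) = true := by rw [hO.acl]; exact hd
          rw [hγ0 d hd, hγ0 _ had]
      · intro d hsd
        have hone := hO.one d hsd
        by_cases hd : O d = true
        · by_cases hd' : O (N.s d) = true
          · obtain ⟨j, hj, hdj⟩ := hex d hd
            have hst : Step N.s N.a O (N.s d) d := ⟨hd', hd, Or.inr (Or.inr (N.s3 d).symm)⟩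
            rw [hγ1 d j hd hj hdj, hγ1 (N.s d) j hd' hj (Relation.ReflTransGen.head hst hdj)]
            have hjc : κ j ≠ c := (hκ j).2 hj
            have h3 := (ct4_third_ne c (κ j) hjc).2
            simp only [val]
            rw [hα2 d hsd hd hd']
            revert h3
            cases α d <;> cases α (N.port j) <;> simp [eq_comm]
          · rw [hγ0 _ hd']
            exact ((hγc d).2 hd).symm
        · have hd' : O (N.s d) = true := by
            rcases hone with h | h | h
            · exact h.2.1
            · exact absurd h.1 hd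
            · exact h.2.1
          rw [hγ0 d hd]
          exact (hγc _).2 hd'
      · intro j
        by_cases hj : O (N.port j) = true
        · rw [hγ1 (N.port j) j hj hj .refl]
          simp [val]
        · rw [hγ0 _ hj]
          by_contra h
          exact hj ((hκ j).1 (Ne.symm h))

/-- CT-4b -/
theorem exists_spec [Finite H] (O : H → Bool) (hO : N.Sys O) : ∃ b ε, N.Spec O b ε :=
  exists_spec_of N O hO (pairing N O hO.toFac) (alternate N O hO)

/-- CT-4c -/
theorem spec_unique (O : H → Bool) (b b' : Fin k → Fin k) (ε ε' : Fin k → Bool)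
    (h : N.Spec O b ε) (h' : N.Spec O b' ε') : b = b' := by
  funext j
  by_cases hj : O (N.port j) = true
  · rcases h.uni j (b' j) hj (h'.con j hj) with h1 | h1
    · exact absurd h1 ((h'.use j).1 hj)
    · exact h1.symm
  · have h1 : b j = j := by
      by_contra h1; exact hj ((h.use j).2 h1)
    have h2 : b' j = j := by
      by_contra h2; exact hj ((h'.use j).2 h2)
    rw [h1, h2]

end poles

end Pool.Agent.Helper17.CT
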