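import Pool.Agent.Helper17.CT.Piece

set_option autoImplicit false

/-!
The wheel of a code embeds (FS-13), and the outer boundary of the wheel is a ring (FS-14).
-/

namespace Pool.Agent.Helper17.CT

/-- what `okIdx` says -/
structure IdxOK (F : Code) : Prop where
  hn : F.n = F.c + F.idx.length
  h3 : 3 ≤ F.c
  rg : ∀ t < F.idx.length, (getP F.idx t).1 < F.c ∧ 2 ≤ (getP F.idx t).2 ∧
    (getP F.idx t).2 + 2 ≤ getN F.ns (getP F.idx t).1
  ds : ∀ t < F.idx.length, ∀ t' < t, getP F.idx t' ≠ getP F.idx t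
  ed : ∀ x < 3 * F.n, d4 F.P x = 0 → formE F x (d6 F.E x) = true ∨ formE F (d6 F.E x) x = true
  nt : ∀ t < F.idx.length, t + 1 ≠ F.idx.length → d6 F.E (3 * (F.c + t)) = 3 * (F.c + t + 1) +
    (if (getP F.idx (t + 1)).2 = 2 then 1 else 2)
  np : ∀ t < F.idx.length, d4 F.P (3 * (F.c + t)) = 0
  qq : ∀ j < F.k, d6 F.Q j % 3 = 1 ∧ F.c ≤ d6 F.Q j / 3 ∧ d6 F.Q j / 3 < F.n ∧
    (getP F.idx (d6 F.Q j / 3 - F.c)).2 ≠ 2 ∧ ∀ i < j, d6 F.Q i < d6 F.Q j

lemma IdxOK.of {F : Code} (h : okIdx F = true) : IdxOK F := by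
  unfold okIdx at h
  simp only [Bool.and_eq_true, decide_eq_true_eq, List.all_eq_true, List.mem_range,
    Bool.or_eq_true] at h
  obtain ⟨⟨⟨⟨⟨⟨⟨⟨h1, h2⟩, h3⟩, h4⟩, h5⟩, h6⟩, h7⟩, h8⟩, h9⟩ := h
  refine ⟨h1, h3, fun t ht => ?_, fun t ht t' ht' => h5 t ht t' ht', fun x hx h0 => ?_,
    fun t ht h0 => ?_, h8, fun j hj => ?_⟩
  · obtain ⟨⟨a1, a2⟩, a3⟩ := h4 t ht
    exact ⟨a1, a2, a3⟩
  · rcases h6 x hx with (a | a) | a
    · exact absurd h0 a
    · exact Or.inl a
    · exact Or.inr a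
  · exact (h7 t ht).resolve_left h0
  · obtain ⟨⟨⟨⟨a1, a2⟩, a3⟩, a4⟩, a5⟩ := h9 j hj
    exact ⟨a1, a2, a3, a4, a5⟩

section

variable {D : Type} (M : CMap D)

lemma CMap.a_iter32 (y : D) (j : ℕ) : M.a (M.f^[j] y) = M.s (M.s (M.f^[j + 1] y)) := by
  rw [Function.iterate_succ_apply']
  change _ = M.s (M.s (M.s (M.a _)))
  rw [M.s3]

lemma CMap.s_inj32 {x y : D} (h : M.s x = M.s y) : x = y := by
  rw [← M.s3 x, h, M.s3]

/-- the dart with number `3 * v` -/
def bs32 (F : Code) (M : CMap D) (d : D) (v : ℕ) : D :=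
  if v < F.c then M.f^[v] d
  else M.f^[(getP F.idx (v - F.c)).2] (M.a (M.f^[(getP F.idx (v - F.c)).1] d))

/-- the dart with number `x` -/
def io32 (F : Code) (M : CMap D) (d : D) (x : ℕ) : D := M.s^[x % 3] (bs32 F M d (x / 3))

lemma io32_0 (F : Code) (d : D) {x : ℕ} (h : x % 3 = 0) :
    io32 F M d x = bs32 F M d (x / 3) := by
  unfold io32
  rw [h]
  rfl

lemma io32_1 (F : Code) (d : D) {x : ℕ} (h : x % 3 = 1) :
    io32 F M d x = M.s (bs32 F M d (x / 3)) := by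
  unfold io32
  rw [h]
  rfl

lemma io32_2 (F : Code) (d : D) {x : ℕ} (h : x % 3 = 2) :
    io32 F M d x = M.s (M.s (bs32 F M d (x / 3))) := by
  unfold io32
  rw [h]
  rfl

lemma bs32_lt (F : Code) (d : D) {v : ℕ} (h : v < F.c) : bs32 F M d v = M.f^[v] d := if_pos h

lemma bs32_ge (F : Code) (d : D) {v : ℕ} (h : F.c ≤ v) : bs32 F M d v =
    M.f^[(getP F.idx (v - F.c)).2] (M.a (M.f^[(getP F.idx (v - F.c)).1] d)) :=
  if_neg (by omega)

lemma form_ok32 (F : Code) (hI : IdxOK F) (d : D)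
    (hc : Function.minimalPeriod M.f d = F.c)
    (hn : ∀ i < F.c, Function.minimalPeriod M.f (M.a ((M.f)^[i] d)) = getN F.ns i)
    {x y : ℕ} (hx : x < 3 * F.n) (hy : y < 3 * F.n) (h : formE F x y = true) :
    io32 F M d y = M.a (io32 F M d x) := by
  have hN := hI.hn
  have hm : ∀ n : ℕ, M.f^[n % F.c] d = M.f^[n] d := fun n => by
    rw [← hc, Function.iterate_mod_minimalPeriod_eq]
  have hlt : ∀ n : ℕ, n % F.c < F.c := fun n => Nat.mod_lt _ (by have := hI.h3; omega)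
  unfold formE at h
  simp only [Bool.and_eq_true, Bool.or_eq_true, decide_eq_true_eq] at h
  rcases h with ((⟨⟨h1, h2⟩, h3⟩ | ⟨⟨⟨⟨h1, h2⟩, h3⟩, h4⟩, h5⟩) | ⟨⟨⟨⟨h1, h2⟩, h3⟩, h4⟩, h5⟩) |
    ⟨⟨⟨⟨⟨h1, h2⟩, h3⟩, h4⟩, h5⟩, h6⟩
  · have e1 : y % 3 = 2 := by omega
    have e2 : y / 3 = (x / 3 + 1) % F.c := by omega
    rw [io32_0 M F d h2, io32_2 M F d e1, e2, bs32_lt M F d (hlt _), bs32_lt M F d h1, hm,
      M.a_iter32]
  · rw [io32_1 M F d h2, io32_2 M F d h3, bs32_lt M F d h1, bs32_ge M F d h4, h5]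
    change M.s (M.s (M.f (M.f (M.a (M.f^[x / 3] d))))) = _
    change M.s (M.s (M.s (M.a (M.f (M.a (M.f^[x / 3] d)))))) = _
    rw [M.s3]
    change M.a (M.s (M.a (M.a (M.f^[x / 3] d)))) = _
    rw [M.a2]
  · rw [io32_0 M F d h2, io32_2 M F d h3, bs32_ge M F d h1, bs32_ge M F d h4, h5]
    exact (M.a_iter32 (M.a (M.f^[(getP F.idx (x / 3 - F.c)).1] d)) _).symm
  · have hv : x / 3 - F.c < F.idx.length := by omega
    obtain ⟨r1, r2, r3⟩ := hI.rg _ hv
    rw [io32_0 M F d h2, io32_1 M F d h3, bs32_ge M F d h1, bs32_ge M F d h4, h6]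
    change M.s (M.f (M.f (M.a (M.f^[_ % F.c] d)))) = _
    rw [hm]
    generalize (getP F.idx (x / 3 - F.c)).1 = i at *
    generalize (getP F.idx (x / 3 - F.c)).2 = j at *
    have p1 : M.f^[j + 2] (M.a (M.f^[i] d)) = M.a (M.f^[i] d) := by
      rw [h5, ← hn i r1]
      exact Function.iterate_minimalPeriod
    have p0 := M.a_iter32 (M.a (M.f^[i] d)) j
    rw [p0]
    have p2 : M.s (M.a (M.f^[j + 1] (M.a (M.f^[i] d)))) = M.a (M.f^[i] d) := by
      rw [Function.iterate_succ_apply'] at p1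
      exact p1
    have p3 : M.a (M.f^[j + 1] (M.a (M.f^[i] d))) = M.s (M.f^[i + 1] d) := by
      apply M.s_inj32
      rw [p2, M.a_iter32]
    have p4 : M.f^[j + 1] (M.a (M.f^[i] d)) = M.a (M.s (M.f^[i + 1] d)) := by
      rw [← p3, M.a2]
    rw [p4]
    change M.s (M.s (M.a (M.s (M.a (M.a (M.f^[i + 1] d)))))) = _
    rw [M.a2]

lemma rot_inj32 {y : D} {r r' : ℕ} (hr : r < 3) (hr' : r' < 3) (h : M.s^[r] y = M.s^[r'] y) :
    r = r' := by
  have k1 : M.s y ≠ y := M.s1 y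
  have k2 : M.s (M.s y) ≠ M.s y := M.s1 _
  have k3 : M.s (M.s y) ≠ y := fun k => by
    have := M.s3 y
    rw [k] at this
    exact k1 this
  interval_cases r <;> interval_cases r' <;> simp only [Function.iterate_succ,
    Function.iterate_zero, Function.comp, id] at h <;> first
    | rfl
    | exact absurd h k1
    | exact absurd h.symm k1
    | exact absurd h k2
    | exact absurd h.symm k2
    | exact absurd h k3
    | exact absurd h.symm k3

lemma VEq_of_rot32 {y z : D} {r r' : ℕ} (hr : r < 3) (hr' : r' < 3)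
    (h : M.s^[r] y = M.s^[r'] z) : M.VEq y z := by
  unfold CMap.VEq
  have k := M.s3 z
  interval_cases r <;> interval_cases r' <;> simp only [Function.iterate_succ,
    Function.iterate_zero, Function.comp, id] at h
  · exact Or.inl h.symm
  · right; right; rw [h, k]
  · right; left; rw [h, k]
  · right; left; exact h.symm
  · left; exact (M.s_inj32 h).symm
  · right; right
    rw [M.s_inj32 h, k]
  · right; right; exact h.symm
  · right; left; exact (M.s_inj32 h).symm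
  · left; exact (M.s_inj32 (M.s_inj32 h)).symm

lemma VEq_symm32 {y z : D} (h : M.VEq y z) : M.VEq z y := by
  rcases h with h | h | h
  · exact Or.inl h.symm
  · right; right; rw [h, M.s3]
  · right; left; rw [h, M.s3]

end

/-- FS-13 -/
theorem emb_of_code (F : Code) (hF : CodeOK F) (hI : okIdx F = true) {D : Type} (M : CMap D)
    (d : D) (hc : Function.minimalPeriod M.f d = F.c)
    (hn : ∀ i < F.c, Function.minimalPeriod M.f (M.a ((M.f)^[i] d)) = getN F.ns i)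
    (h1 : ∀ i < F.c, ∀ i' < F.c, M.VEq ((M.f)^[i] d) ((M.f)^[i'] d) → i = i')
    (h2 : ∀ i < F.c, ∀ i' < F.c, ∀ j, 2 ≤ j → j + 2 ≤ getN F.ns i' →
      ¬ M.VEq ((M.f)^[i] d) ((M.f)^[j] (M.a ((M.f)^[i'] d))))
    (h3 : ∀ i < F.c, ∀ j, 2 ≤ j → j + 2 ≤ getN F.ns i → ∀ i' < F.c, ∀ j', 2 ≤ j' →
      j' + 2 ≤ getN F.ns i' →
      M.VEq ((M.f)^[j] (M.a ((M.f)^[i] d))) ((M.f)^[j'] (M.a ((M.f)^[i'] d))) →
        i = i' ∧ j = j') : Nonempty (Emb (piece F hF) M) := by
  have hJ := IdxOK.of hI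
  have hN := hJ.hn
  have hbase : ∀ v w : ℕ, v < F.n → w < F.n → M.VEq (bs32 F M d v) (bs32 F M d w) → v = w := by
    intro v w hv hw h
    by_cases a : v < F.c
    · by_cases b : w < F.c
      · rw [bs32_lt M F d a, bs32_lt M F d b] at h
        exact h1 v a w b h
      · rw [bs32_lt M F d a, bs32_ge M F d (by omega)] at h
        obtain ⟨r1, r2, r3⟩ := hJ.rg (w - F.c) (by omega)
        exact absurd h (h2 v a _ r1 _ r2 r3)
    · by_cases b : w < F.c
      · rw [bs32_ge M F d (by omega), bs32_lt M F d b] at h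
        obtain ⟨r1, r2, r3⟩ := hJ.rg (v - F.c) (by omega)
        exact absurd (VEq_symm32 M h) (h2 w b _ r1 _ r2 r3)
      · rw [bs32_ge M F d (by omega), bs32_ge M F d (by omega)] at h
        obtain ⟨r1, r2, r3⟩ := hJ.rg (v - F.c) (by omega)
        obtain ⟨s1, s2, s3⟩ := hJ.rg (w - F.c) (by omega)
        obtain ⟨e1, e2⟩ := h3 _ r1 _ r2 r3 _ s1 _ s2 s3 h
        have e3 : getP F.idx (v - F.c) = getP F.idx (w - F.c) := Prod.ext e1 e2
        rcases lt_trichotomy (v - F.c) (w - F.c) with g | g | g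
        · exact absurd e3 (hJ.ds _ (by omega) _ g)
        · omega
        · exact absurd e3.symm (hJ.ds _ (by omega) _ g)
  refine ⟨⟨fun x => io32 F M d x, ?_, ?_, ?_⟩⟩
  · rintro ⟨x, hx⟩ ⟨y, hy⟩ hxy
    have hxy' : M.s^[x % 3] (bs32 F M d (x / 3)) = M.s^[y % 3] (bs32 F M d (y / 3)) := hxy
    have m1 : x % 3 < 3 := Nat.mod_lt _ (by norm_num)
    have m2 : y % 3 < 3 := Nat.mod_lt _ (by norm_num)
    have e1 := hbase (x / 3) (y / 3) (by omega) (by omega) (VEq_of_rot32 M m1 m2 hxy')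
    rw [e1] at hxy'
    have e2 := rot_inj32 M m1 m2 hxy'
    apply Fin.ext
    change x = y
    omega
  · rintro ⟨x, hx⟩
    change io32 F M d (nx x) = M.s (io32 F M d x)
    have e0 : nx x = 3 * (x / 3) + (x % 3 + 1) % 3 := rfl
    have e1 : nx x / 3 = x / 3 := by omega
    have m1 : x % 3 < 3 := Nat.mod_lt _ (by norm_num)
    have m2 : x % 3 = 0 ∨ x % 3 = 1 ∨ x % 3 = 2 := by omega
    rcases m2 with m2 | m2 | m2
    · have e2 : nx x % 3 = 1 := by omega
      rw [io32_1 M F d e2, io32_0 M F d m2, e1]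
    · have e2 : nx x % 3 = 2 := by omega
      rw [io32_2 M F d e2, io32_1 M F d m2, e1]
    · have e2 : nx x % 3 = 0 := by omega
      rw [io32_0 M F d e2, io32_2 M F d m2, e1, M.s3]
  · rintro ⟨x, hx⟩ hq
    have hp : d4 F.P x = 0 := (port_iff hF ⟨x, hx⟩).1 hq
    change io32 F M d (d6 F.E x) = M.a (io32 F M d x)
    obtain ⟨a1, a2, a3, a4⟩ := hF.np x hx hp
    rcases hJ.ed x hx hp with h | h
    · exact form_ok32 M F hJ d hc hn hx a1 h
    · rw [form_ok32 M F hJ d hc hn a1 hx h, M.a2]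

/-- FS-14 -/
theorem ring_of_code (F : Code) (hF : CodeOK F) (hI : okIdx F = true) :
    ∃ (R : ℕ) (r : ℕ → Fin (3 * F.n)) (u : ℕ → Bool) (τ : Fin F.k → ℕ),
      Ring (piece F hF) R r u τ := by
  have hJ := IdxOK.of hI
  have hN := hJ.hn
  have h0 : 0 < F.n := by have := hF.n2; omega
  have hlt : ∀ t, 3 * ((F.c + t) % F.n) < 3 * F.n := fun t => by
    have := Nat.mod_lt (F.c + t) h0
    omega
  have hval : ∀ t, t < F.idx.length → (F.c + t) % F.n = F.c + t := fun t ht =>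
    Nat.mod_eq_of_lt (by omega)
  have hnx : ∀ x, nx x = 3 * (x / 3) + (x % 3 + 1) % 3 := fun _ => rfl
  refine ⟨F.idx.length, fun t => ⟨3 * ((F.c + t) % F.n), hlt t⟩,
    fun t => decide ((getP F.idx t).2 = 2), fun j => d6 F.Q j / 3 - F.c, ?_, ?_, ?_, ?_, ?_, ?_, ?_⟩
  · intro t ht
    refine (port_iff hF _).2 ?_
    change d4 F.P (3 * ((F.c + t) % F.n)) = 0
    rw [hval t (by omega)]
    exact hJ.np t (by omega)
  · intro t ht
    have e1 := hJ.nt t (by omega) (by omega)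
    by_cases g : (getP F.idx (t + 1)).2 = 2
    · simp only [g, decide_true, if_true]
      apply Fin.ext
      change d6 F.E (3 * ((F.c + t) % F.n)) = nx (3 * ((F.c + (t + 1)) % F.n))
      rw [hval t (by omega), hval (t + 1) ht, e1, if_pos g, hnx]
      omega
    · simp only [g, decide_false, Bool.false_eq_true, if_false]
      apply Fin.ext
      change d6 F.E (3 * ((F.c + t) % F.n)) = nx (nx (3 * ((F.c + (t + 1)) % F.n)))
      rw [hval t (by omega), hval (t + 1) ht, e1, if_neg g, hnx, hnx]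
      omega
  · intro j
    obtain ⟨q1, q2, q3, q4, q5⟩ := hJ.qq j j.2
    apply Fin.ext
    change d6 F.Q j = nx (3 * ((F.c + (d6 F.Q j / 3 - F.c)) % F.n))
    rw [hval _ (by omega), hnx]
    omega
  · intro j
    obtain ⟨q1, q2, q3, q4, q5⟩ := hJ.qq j j.2
    simp [q4]
  · intro j
    obtain ⟨q1, q2, q3, q4, q5⟩ := hJ.qq j j.2
    omega
  · intro i j hij
    obtain ⟨q1, q2, q3, q4, q5⟩ := hJ.qq j j.2
    obtain ⟨p1, p2, p3, p4, p5⟩ := hJ.qq i i.2
    have := q5 i hij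
    change d6 F.Q i / 3 - F.c < d6 F.Q j / 3 - F.c
    omega
  · intro t t' ht ht' h
    have e : (3 * ((F.c + t') % F.n)) / 3 = (3 * ((F.c + t) % F.n)) / 3 := by
      rcases h with h | h | h
      · have := congrArg Fin.val h
        change 3 * ((F.c + t') % F.n) = 3 * ((F.c + t) % F.n) at this
        rw [this]
      · have := congrArg Fin.val h
        change 3 * ((F.c + t') % F.n) = nx (3 * ((F.c + t) % F.n)) at this
        rw [this, hnx]
        omega
      · have := congrArg Fin.val h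
        change 3 * ((F.c + t') % F.n) = nx (nx (3 * ((F.c + t) % F.n))) at this
        rw [this, hnx, hnx]
        omega
    rw [hval t ht, hval t' ht'] at e
    omega

end Pool.Agent.Helper17.CT
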